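import Mathlib

set_option autoImplicit false

/-!
# Plane curves with assigned multiplicities: the definitions
-/

namespace Pool.Agent.H248R5

open MvPolynomial

/-- The local equation `G (u + p 0, v + p 1, 1)` of the form `G` at the point `(p 0 : p 1 : 1)`,
in the affine coordinates `u = X 0`, `v = X 1` centred at that point. -/
noncomputable def tau {K : Type*} [Field K] (p : Fin 2 → K) :
    MvPolynomial (Fin 3) K →ₐ[K] MvPolynomial (Fin 2) K :=
  aeval ![X 0 + C (p 0), X 1 + C (p 1), 1]

/-- The space of forms of degree `d` with multiplicity at least `w i` at `(P i 0 : P i 1 : 1)`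
for all `i`. -/
noncomputable def forms {K : Type*} [Field K] {n : ℕ} (w : Fin n → ℕ) (P : Fin n → Fin 2 → K)
    (d : ℕ) : Submodule K (MvPolynomial (Fin 3) K) :=
  homogeneousSubmodule (Fin 3) K d ⊓
    Submodule.restrictScalars K
      (⨅ i : Fin n,
        (Ideal.span
          ({X 0 - C (P i 0) * X 2, X 1 - C (P i 1) * X 2} :
            Set (MvPolynomial (Fin 3) K))) ^ (w i))

/-- The plane curve `G = 0` has at each point `(P i 0 : P i 1 : 1)` multiplicity exactly `w i`,
with a leading form (tangent cone) without multiple zeros, that is an ordinary `w i`-fold point,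
and it is smooth everywhere else. Hence its strict transform, of class `d H - ∑ w i E i`, is a
smooth curve on the blow-up of the plane at the points `P i` (and it is transversal to the
exceptional curves `E i`). -/
def SmoothMember {K : Type*} [Field K] {n : ℕ} (w : Fin n → ℕ) (P : Fin n → Fin 2 → K)
    (G : MvPolynomial (Fin 3) K) : Prop :=
  (∀ Q : Fin 3 → K, Q ≠ 0 → eval Q G = 0 → (∀ a, eval Q (pderiv a G) = 0) →
    ∃ i, 0 < w i ∧ ∃ c : K, Q = c • (![P i 0, P i 1, 1] : Fin 3 → K)) ∧
  ∀ i, (∀ s : Fin 2 →₀ ℕ, s.degree < w i → coeff s (tau (P i) G) = 0) ∧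
    ∀ v : Fin 2 → K, v ≠ 0 → eval v (homogeneousComponent (w i) (tau (P i) G)) = 0 →
      ∃ a, eval v (pderiv a (homogeneousComponent (w i) (tau (P i) G))) ≠ 0

/-- The general member of a linear space `V` of forms has the property `p`: in every basis of `V`,
all linear combinations with coefficients outside some hypersurface have it. -/
def GeneralMember {K : Type*} [Field K] (V : Submodule K (MvPolynomial (Fin 3) K))
    (p : MvPolynomial (Fin 3) K → Prop) : Prop :=
  ∀ (N : ℕ) (b : Module.Basis (Fin N) K V), ∃ Φ : MvPolynomial (Fin N) K, Φ ≠ 0 ∧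
    ∀ t : Fin N → K, eval t Φ ≠ 0 → p (∑ j, t j • (b j : MvPolynomial (Fin 3) K))

end Pool.Agent.H248R5
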