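import Mathlib
import Pool.Agent.H15.G.R_seed8.H932R2.Points

set_option autoImplicit false

/-!
# Forms with multiple points and their Taylor expansions
-/

namespace Pool.Agent.H248R5

open MvPolynomial

variable {K : Type*} [Field K]

theorem sum_fin_succ (m : ℕ) : ∑ k : Fin m, ((k : ℕ) + 1) = (m + 1).choose 2 := by
  rw [Fin.sum_univ_eq_sum_range (fun k => k + 1) m]
  induction m with
  | zero => simp
  | succ m ih =>
    have h := Nat.choose_succ_succ' (m + 1) 1
    rw [Nat.choose_one_right] at h
    rw [Finset.sum_range_succ, ih]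
    have h2 : (m + 1 + 1).choose 2 = (m + 1 + 1).choose (1 + 1) := rfl
    have h3 : (m + 1).choose 2 = (m + 1).choose (1 + 1) := rfl
    omega

theorem card_tri (m : ℕ) : Fintype.card (Σ k : Fin m, Fin ((k : ℕ) + 1)) = (m + 1).choose 2 := by
  rw [Fintype.card_sigma]
  simp only [Fintype.card_fin]
  exact sum_fin_succ m

/-- The dimension of the space of forms of degree `e` is at least the expected number. -/
theorem le_finrank_forms (e : ℕ) :
    (e + 2).choose 2 ≤ Module.finrank K ↥(homogeneousSubmodule (Fin 3) K e) := by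
  classical
  have hfin : Module.Finite K ↥(homogeneousSubmodule (Fin 3) K e) :=
    Module.Finite.iff_fg.2 (homogeneousSubmodule_fg _ _ e)
  let ex : (Σ k : Fin (e + 1), Fin ((k : ℕ) + 1)) → (Fin 3 →₀ ℕ) := fun x =>
    Finsupp.equivFunOnFinite.symm ![(x.2 : ℕ), (x.1 : ℕ) - x.2, e - x.1]
  have hex : Function.Injective ex := by
    rintro ⟨⟨k, hk⟩, ⟨j, hj⟩⟩ ⟨⟨k', hk'⟩, ⟨j', hj'⟩⟩ h
    have h0 : j = j' := by
      have := DFunLike.congr_fun h 0
      simpa [ex] using this
    have h1 : k - j = k' - j' := by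
      have := DFunLike.congr_fun h 1
      simpa [ex] using this
    have h2 : e - k = e - k' := by
      have := DFunLike.congr_fun h 2
      simpa [ex] using this
    have hkk : k = k' := by omega
    subst hkk
    subst h0
    rfl
  have hli : LinearIndependent K (fun x => (monomial (ex x) (1 : K))) := by
    have h := (basisMonomials (Fin 3) K).linearIndependent.comp ex hex
    have h2 : (⇑(basisMonomials (Fin 3) K) ∘ ex) = fun x => (monomial (ex x) (1 : K)) := by
      funext x
      rw [Function.comp_apply, coe_basisMonomials]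
    rwa [h2] at h
  have hmem : ∀ x, monomial (ex x) (1 : K) ∈ homogeneousSubmodule (Fin 3) K e := by
    intro x
    rw [mem_homogeneousSubmodule]
    apply isHomogeneous_monomial
    rcases x with ⟨⟨k, hk⟩, ⟨j, hj⟩⟩
    rw [Finsupp.degree_eq_sum, Fin.sum_univ_three]
    simp only [ex, Finsupp.coe_equivFunOnFinite_symm]
    simp only [Matrix.cons_val_zero, Matrix.cons_val_one, Matrix.cons_val]
    simp only at hj
    omega
  let v : (Σ k : Fin (e + 1), Fin ((k : ℕ) + 1)) → homogeneousSubmodule (Fin 3) K e :=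
    fun x => ⟨monomial (ex x) (1 : K), hmem x⟩
  have hv : LinearIndependent K v := LinearIndependent.of_comp (Submodule.subtype _) hli
  have h3 := hv.fintype_card_le_finrank
  rwa [card_tri] at h3

/-- The quotient by a power of the maximal ideal of the origin of the plane. -/
abbrev Quo (K : Type*) [Field K] (w : ℕ) := MvPolynomial (Fin 2) K ⧸ (idealOfVars (Fin 2) K) ^ w

theorem quo_span (w : ℕ) :
    Submodule.span K (Set.range (fun x : (Σ k : Fin w, Fin ((k : ℕ) + 1)) =>
      (Ideal.Quotient.mk ((idealOfVars (Fin 2) K) ^ w)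
        (monomial (Finsupp.equivFunOnFinite.symm ![(x.2 : ℕ), (x.1 : ℕ) - x.2]) (1 : K)))))
      = (⊤ : Submodule K (Quo K w)) := by
  classical
  rw [eq_top_iff]
  intro y _
  obtain ⟨f, rfl⟩ := Ideal.Quotient.mk_surjective y
  rw [f.as_sum, map_sum]
  refine Submodule.sum_mem _ fun s _ => ?_
  by_cases hs : s.degree < w
  · have h1 : (monomial s (coeff s f) : MvPolynomial (Fin 2) K) =
        coeff s f • monomial s (1 : K) := by
      rw [smul_monomial, smul_eq_mul, mul_one]
    rw [h1]
    have h2 : Ideal.Quotient.mk ((idealOfVars (Fin 2) K) ^ w) (coeff s f • monomial s (1 : K)) =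
        coeff s f • Ideal.Quotient.mk ((idealOfVars (Fin 2) K) ^ w) (monomial s (1 : K)) := rfl
    rw [h2]
    have h3 : s.degree = s 0 + s 1 := by
      rw [Finsupp.degree_eq_sum, Fin.sum_univ_two]
    refine Submodule.smul_mem _ _ (Submodule.subset_span ⟨⟨⟨s.degree, hs⟩, ⟨s 0, ?_⟩⟩, ?_⟩)
    · simp only
      omega
    · simp only
      have h4 : (Finsupp.equivFunOnFinite.symm ![s 0, s.degree - s 0] : Fin 2 →₀ ℕ) = s := by
        refine Finsupp.ext fun i => ?_
        fin_cases i
        · rfl
        · change s.degree - s 0 = s 1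
          omega
      rw [h4]
  · have h1 : Ideal.Quotient.mk ((idealOfVars (Fin 2) K) ^ w) (monomial s (coeff s f)) = 0 := by
      rw [Ideal.Quotient.eq_zero_iff_mem, mem_pow_idealOfVars_iff']
      intro x hx
      rw [coeff_monomial, if_neg]
      rintro rfl
      exact hs hx
    rw [h1]
    exact Submodule.zero_mem _

theorem quo_finite (w : ℕ) : Module.Finite K (Quo K w) := by
  classical
  exact ⟨⟨Finset.univ.image (fun x : (Σ k : Fin w, Fin ((k : ℕ) + 1)) =>
      (Ideal.Quotient.mk ((idealOfVars (Fin 2) K) ^ w)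
        (monomial (Finsupp.equivFunOnFinite.symm ![(x.2 : ℕ), (x.1 : ℕ) - x.2]) (1 : K)))), by
      rw [Finset.coe_image, Finset.coe_univ, Set.image_univ]
      exact quo_span w⟩⟩

theorem finrank_quo_le (w : ℕ) : Module.finrank K (Quo K w) ≤ (w + 1).choose 2 := by
  have h := finrank_range_le_card (R := K) (fun x : (Σ k : Fin w, Fin ((k : ℕ) + 1)) =>
      (Ideal.Quotient.mk ((idealOfVars (Fin 2) K) ^ w)
        (monomial (Finsupp.equivFunOnFinite.symm ![(x.2 : ℕ), (x.1 : ℕ) - x.2]) (1 : K))))
  rw [Set.finrank, quo_span, finrank_top, card_tri] at h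
  exact h

end Pool.Agent.H248R5
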