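import Mathlib
import Pool.Agent.H15.G.R_seed8.H248R5.Lin
import Pool.Agent.H15.G.R_seed8.H248R5.Defs

set_option autoImplicit false

/-!
# Taylor expansion at a point of the affine plane, and independence of conditions
-/

namespace Pool.Agent.H248R5

open MvPolynomial

variable {K : Type*} [Field K]

theorem tau_X0 (p : Fin 2 → K) : tau p (X 0) = X 0 + C (p 0) := by simp [tau]
theorem tau_X1 (p : Fin 2 → K) : tau p (X 1) = X 1 + C (p 1) := by simp [tau]
theorem tau_X2 (p : Fin 2 → K) : tau p (X 2) = 1 := by simp [tau]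
theorem tau_C (p : Fin 2 → K) (c : K) : tau p (C c) = C c := (tau p).commutes c

/-- The ideal of the point. -/
noncomputable def pid (p : Fin 2 → K) : Ideal (MvPolynomial (Fin 3) K) :=
  Ideal.span {X 0 - C (p 0) * X 2, X 1 - C (p 1) * X 2}

theorem tau_mem_of_mem {p : Fin 2 → K} {w : ℕ} {G : MvPolynomial (Fin 3) K}
    (hG : G ∈ (pid p) ^ w) : tau p G ∈ (idealOfVars (Fin 2) K) ^ w := by
  have h := Ideal.mem_map_of_mem (tau p) hG
  rw [Ideal.map_pow] at h
  refine Ideal.pow_right_mono ?_ w h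
  rw [pid, Ideal.map_span, Set.image_pair, Ideal.span_le]
  rintro _ (rfl | rfl)
  · rw [map_sub, map_mul, tau_X0, tau_X2, tau_C, mul_one, add_sub_cancel_right]
    exact Ideal.subset_span ⟨0, rfl⟩
  · rw [map_sub, map_mul, tau_X1, tau_X2, tau_C, mul_one, add_sub_cancel_right]
    exact Ideal.subset_span ⟨1, rfl⟩

/-- Dehomogenisation at the origin. -/
noncomputable def dh (K : Type*) [Field K] : MvPolynomial (Fin 3) K →ₐ[K] MvPolynomial (Fin 2) K :=
  aeval ![X 0, X 1, 1]

theorem dh_monomial (α : Fin 3 →₀ ℕ) (c : K) : dh K (monomial α c) =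
    monomial (Finsupp.equivFunOnFinite.symm ![α 0, α 1]) c := by
  rw [dh, aeval_monomial, Finsupp.prod_fintype _ _ (fun i => by simp), Fin.prod_univ_three,
    monomial_eq, Finsupp.prod_fintype _ _ (fun i => by simp), Fin.prod_univ_two]
  simp

theorem coeff_dh {d : ℕ} {G : MvPolynomial (Fin 3) K} (hG : G.IsHomogeneous d) {α : Fin 3 →₀ ℕ}
    (hα : coeff α G ≠ 0) :
    coeff (Finsupp.equivFunOnFinite.symm ![α 0, α 1]) (dh K G) = coeff α G := by
  classical
  have hdeg : ∀ β : Fin 3 →₀ ℕ, coeff β G ≠ 0 → β 0 + β 1 + β 2 = d := by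
    intro β hβ
    exact H932R2.sum_eq_of_homog hG hβ
  conv_lhs => rw [G.as_sum, map_sum, coeff_sum]
  rw [Finset.sum_eq_single α]
  · rw [dh_monomial, coeff_monomial, if_pos rfl]
  · intro β hβ hne
    rw [dh_monomial, coeff_monomial, if_neg]
    intro h
    apply hne
    have h0 : β 0 = α 0 := by simpa using DFunLike.congr_fun h 0
    have h1 : β 1 = α 1 := by simpa using DFunLike.congr_fun h 1
    have h2 := hdeg β (mem_support_iff.1 hβ)
    have h3 := hdeg α hα
    refine Finsupp.ext fun i => ?_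
    fin_cases i
    · exact h0
    · exact h1
    · show β 2 = α 2
      omega
  · intro h
    exact absurd (mem_support_iff.2 hα) h

theorem dh_tr (p : Fin 2 → K) (G : MvPolynomial (Fin 3) K) :
    dh K (H932R2.tr (p 0) (p 1) G) = tau p G := by
  have h : (dh K).comp (H932R2.tr (p 0) (p 1)) = tau p := by
    refine algHom_ext fun i => ?_
    fin_cases i
    · change dh K (H932R2.tr (p 0) (p 1) (X 0)) = tau p (X 0)
      rw [H932R2.tr_X0, tau_X0]
      simp [dh]
    · change dh K (H932R2.tr (p 0) (p 1) (X 1)) = tau p (X 1)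
      rw [H932R2.tr_X1, tau_X1]
      simp [dh]
    · change dh K (H932R2.tr (p 0) (p 1) (X 2)) = tau p (X 2)
      rw [H932R2.tr_X2, tau_X2]
      simp [dh]
  exact AlgHom.congr_fun h G

theorem mem_of_tau_mem {p : Fin 2 → K} {w d : ℕ} {G : MvPolynomial (Fin 3) K}
    (hG : G.IsHomogeneous d) (h : tau p G ∈ (idealOfVars (Fin 2) K) ^ w) : G ∈ (pid p) ^ w := by
  have hH : (H932R2.tr (p 0) (p 1) G).IsHomogeneous d := H932R2.tr_homog hG
  have h1 : H932R2.tr (p 0) (p 1) G ∈
      (Ideal.span {X 0, X 1} : Ideal (MvPolynomial (Fin 3) K)) ^ w := by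
    refine H932R2.mem_origin fun α hα => ?_
    by_contra hlt
    have h2 := coeff_dh hH hα
    rw [dh_tr, (mem_pow_idealOfVars_iff' w _).1 h] at h2
    · exact hα h2.symm
    · rw [Finsupp.degree_eq_sum, Fin.sum_univ_two]
      simp
      omega
  have h2 := Ideal.mem_map_of_mem (H932R2.tr (-(p 0)) (-(p 1))) h1
  rw [H932R2.tr_tr, Ideal.map_pow, Ideal.map_span, Set.image_pair, H932R2.tr_X0,
    H932R2.tr_X1] at h2
  unfold pid
  have e1 : (X 0 + C (-(p 0)) * X 2 : MvPolynomial (Fin 3) K) = X 0 - C (p 0) * X 2 := by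
    rw [map_neg]
    ring
  have e2 : (X 1 + C (-(p 1)) * X 2 : MvPolynomial (Fin 3) K) = X 1 - C (p 1) * X 2 := by
    rw [map_neg]
    ring
  rw [e1, e2] at h2
  exact h2

theorem mem_forms {n : ℕ} {w : Fin n → ℕ} {P : Fin n → Fin 2 → K} {d : ℕ}
    {G : MvPolynomial (Fin 3) K} :
    G ∈ forms w P d ↔ G.IsHomogeneous d ∧ ∀ i, tau (P i) G ∈ (idealOfVars (Fin 2) K) ^ (w i) := by
  unfold forms
  rw [Submodule.mem_inf, mem_homogeneousSubmodule, Submodule.restrictScalars_mem, Ideal.mem_iInf]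
  constructor
  · rintro ⟨h1, h2⟩
    exact ⟨h1, fun i => tau_mem_of_mem (h2 i)⟩
  · rintro ⟨h1, h2⟩
    exact ⟨h1, fun i => mem_of_tau_mem h1 (h2 i)⟩

/-- The evaluation map. -/
noncomputable def ev {n : ℕ} (w : Fin n → ℕ) (P : Fin n → Fin 2 → K) (e : ℕ) :
    ↥(homogeneousSubmodule (Fin 3) K e) →ₗ[K] (∀ i, Quo K (w i)) :=
  LinearMap.pi fun i => (Ideal.Quotient.mkₐ K ((idealOfVars (Fin 2) K) ^ (w i))).toLinearMap ∘ₗ
    (tau (P i)).toLinearMap ∘ₗ Submodule.subtype _

theorem ev_apply {n : ℕ} (w : Fin n → ℕ) (P : Fin n → Fin 2 → K) (e : ℕ)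
    (H : ↥(homogeneousSubmodule (Fin 3) K e)) (i : Fin n) :
    ev w P e H i = Ideal.Quotient.mk _ (tau (P i) H) := rfl

theorem forms_eq_map {n : ℕ} (w : Fin n → ℕ) (P : Fin n → Fin 2 → K) (e : ℕ) :
    forms w P e = (LinearMap.ker (ev w P e)).map (Submodule.subtype _) := by
  ext G
  rw [mem_forms, Submodule.mem_map]
  constructor
  · rintro ⟨h1, h2⟩
    refine ⟨⟨G, h1⟩, ?_, rfl⟩
    rw [LinearMap.mem_ker]
    funext i
    rw [ev_apply]
    exact Ideal.Quotient.eq_zero_iff_mem.2 (h2 i)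
  · rintro ⟨⟨H, hH⟩, h1, rfl⟩
    refine ⟨hH, fun i => ?_⟩
    rw [LinearMap.mem_ker] at h1
    have h2 := congrFun h1 i
    rw [ev_apply] at h2
    exact Ideal.Quotient.eq_zero_iff_mem.1 h2

/-- Independent conditions: every system of jets is attained. -/
theorem surj_of_ind {n : ℕ} {w : Fin n → ℕ} {P : Fin n → Fin 2 → K} {e : ℕ}
    (h : Module.finrank K ↥(forms w P e) + ∑ i, (w i + 1).choose 2 ≤ (e + 2).choose 2) :
    Function.Surjective (ev w P e) := by
  have hfin : Module.Finite K ↥(homogeneousSubmodule (Fin 3) K e) :=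
    Module.Finite.iff_fg.2 (homogeneousSubmodule_fg _ _ e)
  have hq : ∀ i, Module.Finite K (Quo K (w i)) := fun i => quo_finite (w i)
  have h1 := LinearMap.finrank_range_add_finrank_ker (ev w P e)
  have h2 : Module.finrank K ↥(forms w P e) = Module.finrank K ↥(LinearMap.ker (ev w P e)) := by
    rw [forms_eq_map]
    exact LinearEquiv.finrank_eq (Submodule.equivSubtypeMap _ _).symm
  have h3 : Module.finrank K (∀ i, Quo K (w i)) ≤ ∑ i, (w i + 1).choose 2 := by
    rw [Module.finrank_pi_fintype]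
    exact Finset.sum_le_sum fun i _ => finrank_quo_le (w i)
  have h4 := le_finrank_forms (K := K) e
  rw [← LinearMap.range_eq_top]
  apply Submodule.eq_top_of_finrank_eq
  apply le_antisymm
  · exact Submodule.finrank_le _
  · omega

end Pool.Agent.H248R5
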