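import Mathlib
import Pool.Agent.H15.G.R_seed8.H248R5.Tay
import Pool.Agent.H15.G.R_seed8.H248R5.Bert

set_option autoImplicit false

/-!
# Independence in degree `d - 1` makes the general member in degree `d` smooth
-/

namespace Pool.Agent.H248R5

open MvPolynomial

variable {K : Type*} [Field K]

/-- The linear form with coefficients the cross product of `Q` and `r`. -/
noncomputable def lin (Q r : Fin 3 → K) : MvPolynomial (Fin 3) K :=
  C (Q 1 * r 2 - Q 2 * r 1) * X 0 + C (Q 2 * r 0 - Q 0 * r 2) * X 1 +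
    C (Q 0 * r 1 - Q 1 * r 0) * X 2

theorem lin_homog (Q r : Fin 3 → K) : (lin Q r).IsHomogeneous 1 := by
  unfold lin
  refine IsHomogeneous.add (IsHomogeneous.add ?_ ?_) ?_
  · exact (isHomogeneous_X K _).C_mul _
  · exact (isHomogeneous_X K _).C_mul _
  · exact (isHomogeneous_X K _).C_mul _

theorem eval_lin (Q r v : Fin 3 → K) : eval v (lin Q r) =
    (v 1 * Q 2 - v 2 * Q 1) * r 0 + (v 2 * Q 0 - v 0 * Q 2) * r 1 +
      (v 0 * Q 1 - v 1 * Q 0) * r 2 := by
  simp only [lin, map_add, map_mul, eval_C, eval_X]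
  ring

theorem eval_lin_self (Q r : Fin 3 → K) : eval Q (lin Q r) = 0 := by
  rw [eval_lin]
  ring

/-- Avoiding finitely many points. -/
theorem exists_lin [Infinite K] {ι : Type*} (s : Finset ι) (v : ι → Fin 3 → K) (Q : Fin 3 → K)
    (hv : ∀ i ∈ s, v i 2 = 1) (h : ∀ i ∈ s, ¬ ∃ c : K, Q = c • v i) :
    ∃ r : Fin 3 → K, ∀ i ∈ s, eval (v i) (lin Q r) ≠ 0 := by
  classical
  let L : ι → MvPolynomial (Fin 3) K := fun i =>
    C (v i 1 * Q 2 - v i 2 * Q 1) * X 0 + C (v i 2 * Q 0 - v i 0 * Q 2) * X 1 +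
      C (v i 0 * Q 1 - v i 1 * Q 0) * X 2
  have hL : ∀ i ∈ s, L i ≠ 0 := by
    intro i hi h0
    have hc : ∀ r : Fin 3 → K, (v i 1 * Q 2 - v i 2 * Q 1) * r 0 +
        (v i 2 * Q 0 - v i 0 * Q 2) * r 1 + (v i 0 * Q 1 - v i 1 * Q 0) * r 2 = 0 := by
      intro r
      have := congrArg (eval r) h0
      simpa [L] using this
    have e0 := hc ![1, 0, 0]
    have e1 := hc ![0, 1, 0]
    simp at e0 e1
    rw [hv i hi] at e0 e1
    apply h i hi
    refine ⟨Q 2, ?_⟩
    funext j
    fin_cases j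
    · simp
      linear_combination e1
    · simp
      linear_combination -e0
    · simp [hv i hi]
  have hne : ∏ i ∈ s, L i ≠ 0 := Finset.prod_ne_zero_iff.2 hL
  obtain ⟨r, hr⟩ : ∃ r, eval r (∏ i ∈ s, L i) ≠ 0 := by
    by_contra hcon
    push Not at hcon
    exact hne (MvPolynomial.funext fun r => by rw [hcon r, map_zero])
  rw [map_prod] at hr
  refine ⟨r, fun i hi => ?_⟩
  have h1 := Finset.prod_ne_zero_iff.1 hr i hi
  rw [eval_lin]
  simpa [L] using h1

theorem constCoeff_tau (p : Fin 2 → K) (G : MvPolynomial (Fin 3) K) :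
    constantCoeff (tau p G) = eval ![p 0, p 1, 1] G := by
  have h : (constantCoeff : MvPolynomial (Fin 2) K →+* K).comp
      (tau p : MvPolynomial (Fin 3) K →+* MvPolynomial (Fin 2) K) =
      (eval ![p 0, p 1, 1] : MvPolynomial (Fin 3) K →+* K) := by
    refine MvPolynomial.ringHom_ext (fun c => ?_) fun i => ?_
    · simp
    · fin_cases i
      · change constantCoeff (tau p (X 0)) = _
        rw [tau_X0]
        simp
      · change constantCoeff (tau p (X 1)) = _
        rw [tau_X1]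
        simp
      · change constantCoeff (tau p (X 2)) = _
        rw [tau_X2]
        simp
  exact congrArg (fun φ : MvPolynomial (Fin 3) K →+* K => φ G) h

theorem isUnit_mk {w : ℕ} {f : MvPolynomial (Fin 2) K} (hf : constantCoeff f ≠ 0) :
    IsUnit (Ideal.Quotient.mk ((idealOfVars (Fin 2) K) ^ w) f) := by
  have h1 : f = C (constantCoeff f) + (f - C (constantCoeff f)) := by ring
  rw [h1, map_add]
  have h2 : IsUnit (Ideal.Quotient.mk ((idealOfVars (Fin 2) K) ^ w) (C (constantCoeff f))) :=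
    ((Ne.isUnit hf).map (C : K →+* MvPolynomial (Fin 2) K)).map _
  have h3 : IsNilpotent (Ideal.Quotient.mk ((idealOfVars (Fin 2) K) ^ w)
      (f - C (constantCoeff f))) := by
    refine ⟨w, ?_⟩
    rw [← map_pow, Ideal.Quotient.eq_zero_iff_mem]
    refine Ideal.pow_mem_pow ?_ w
    have h4 : f - C (constantCoeff f) ∈ (idealOfVars (Fin 2) K) ^ 1 := by
      rw [mem_pow_idealOfVars_iff']
      intro x hx
      have hx0 : x = 0 := by
        rw [← Finsupp.degree_eq_zero_iff]
        omega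
      subst hx0
      rw [coeff_sub, coeff_C, if_pos rfl]
      change constantCoeff f - constantCoeff f = 0
      rw [sub_self]
    rwa [pow_one] at h4
  exact h3.isUnit_add_left_of_commute h2 (Commute.all _ _)

/-- Base point freeness away from the points. -/
theorem bpf [Infinite K] {n : ℕ} {w : Fin n → ℕ} {P : Fin n → Fin 2 → K} {e : ℕ}
    (hS : Function.Surjective (ev w P e)) (Q : Fin 3 → K) (hQ : Q ≠ 0)
    (h : ∀ i, 0 < w i → ¬ ∃ c : K, Q = c • (![P i 0, P i 1, 1] : Fin 3 → K)) :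
    ∃ G ∈ forms w P (e + 1), eval Q G ≠ 0 := by
  classical
  obtain ⟨a, ha⟩ : ∃ a, Q a ≠ 0 := by
    by_contra hcon
    push Not at hcon
    exact hQ (funext hcon)
  obtain ⟨r, hr⟩ := exists_lin (Finset.univ.filter fun i => 0 < w i)
    (fun i => (![P i 0, P i 1, 1] : Fin 3 → K)) Q (fun i _ => by simp)
    (fun i hi => h i (Finset.mem_filter.1 hi).2)
  let F : MvPolynomial (Fin 3) K := X a ^ (e + 1)
  have hF : F.IsHomogeneous (e + 1) := by
    have := (isHomogeneous_X K a).pow (e + 1)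
    rwa [one_mul] at this
  have hu : ∀ i, ∃ y : Quo K (w i), Ideal.Quotient.mk _ (tau (P i) (lin Q r)) * y =
      Ideal.Quotient.mk ((idealOfVars (Fin 2) K) ^ (w i)) (tau (P i) F) := by
    intro i
    rcases Nat.eq_zero_or_pos (w i) with h0 | h0
    · refine ⟨0, ?_⟩
      have : Subsingleton (Quo K (w i)) := by
        rw [Ideal.Quotient.subsingleton_iff, h0, pow_zero, Ideal.one_eq_top]
      exact Subsingleton.elim _ _
    · have h1 : constantCoeff (tau (P i) (lin Q r)) ≠ 0 := by
        rw [constCoeff_tau]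
        exact hr i (Finset.mem_filter.2 ⟨Finset.mem_univ i, h0⟩)
      obtain ⟨u, hu⟩ := isUnit_mk (w := w i) h1
      refine ⟨↑u⁻¹ * Ideal.Quotient.mk ((idealOfVars (Fin 2) K) ^ (w i)) (tau (P i) F), ?_⟩
      rw [← hu, ← mul_assoc, Units.mul_inv, one_mul]
  choose y hy using hu
  obtain ⟨⟨H, hH⟩, hHy⟩ := hS y
  refine ⟨F - lin Q r * H, mem_forms.2 ⟨hF.sub ?_, fun i => ?_⟩, ?_⟩
  · have := (lin_homog Q r).mul hH
    rwa [add_comm] at this
  · have h1 := congrFun hHy i
    rw [ev_apply] at h1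
    rw [← Ideal.Quotient.eq_zero_iff_mem, map_sub, map_sub, map_mul, map_mul, ← hy i, ← h1]
    simp
  · rw [map_sub, map_mul, eval_lin_self, zero_mul, sub_zero]
    simp only [F, map_pow, eval_X]
    exact pow_ne_zero _ ha

/-- Leading forms: pure powers are attained. -/
theorem lead {n : ℕ} {w : Fin n → ℕ} {P : Fin n → Fin 2 → K} {e : ℕ}
    (hS : Function.Surjective (ev w P e)) (i0 : Fin n) (hw : 0 < w i0) (a : Fin 2) :
    ∃ G ∈ forms w P (e + 1),
      homogeneousComponent (w i0) (tau (P i0) G) = X a ^ (w i0) := by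
  classical
  obtain ⟨k, hk⟩ : ∃ k, w i0 = k + 1 := ⟨w i0 - 1, by omega⟩
  let b : Fin 3 := Fin.castSucc a
  obtain ⟨⟨H, hH⟩, hHy⟩ := hS (Function.update (0 : ∀ i, Quo K (w i)) i0
    (Ideal.Quotient.mk ((idealOfVars (Fin 2) K) ^ (w i0)) (X a ^ k)))
  have hHm : H.IsHomogeneous e := hH
  have h0 : tau (P i0) (X b - C (P i0 a) * X 2) = X a := by
    fin_cases a
    · change tau (P i0) (X 0 - C (P i0 0) * X 2) = X 0
      rw [map_sub, map_mul, tau_X0, tau_X2, tau_C, mul_one, add_sub_cancel_right]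
    · change tau (P i0) (X 1 - C (P i0 1) * X 2) = X 1
      rw [map_sub, map_mul, tau_X1, tau_X2, tau_C, mul_one, add_sub_cancel_right]
  have h1 : tau (P i0) H - X a ^ k ∈ (idealOfVars (Fin 2) K) ^ (w i0) := by
    have h := congrFun hHy i0
    rw [ev_apply, Function.update_self] at h
    exact Ideal.Quotient.eq.1 h
  have hXa : (X a : MvPolynomial (Fin 2) K) ∈ idealOfVars (Fin 2) K := Ideal.subset_span ⟨a, rfl⟩
  have h2 : X a * (tau (P i0) H - X a ^ k) ∈ (idealOfVars (Fin 2) K) ^ (w i0 + 1) := by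
    rw [pow_succ']
    exact Ideal.mul_mem_mul hXa h1
  have h3 : tau (P i0) ((X b - C (P i0 a) * X 2) * H) =
      X a ^ (w i0) + X a * (tau (P i0) H - X a ^ k) := by
    rw [map_mul, h0, hk, pow_succ]
    ring
  refine ⟨(X b - C (P i0 a) * X 2) * H, mem_forms.2 ⟨?_, fun i => ?_⟩, ?_⟩
  · have h4 : (X b - C (P i0 a) * X 2 : MvPolynomial (Fin 3) K).IsHomogeneous 1 :=
      (isHomogeneous_X K _).sub ((isHomogeneous_X K _).C_mul _)
    have := h4.mul hHm
    rwa [add_comm] at this
  · by_cases hi : i = i0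
    · subst hi
      rw [h3]
      exact Ideal.add_mem _ (Ideal.pow_mem_pow hXa _) (Ideal.pow_le_pow_right (Nat.le_succ _) h2)
    · rw [map_mul]
      refine Ideal.mul_mem_left _ _ ?_
      have h := congrFun hHy i
      rw [ev_apply, Function.update_of_ne hi] at h
      exact Ideal.Quotient.eq_zero_iff_mem.1 h
  · rw [h3, map_add]
    have h5 : homogeneousComponent (w i0) (X a ^ (w i0) : MvPolynomial (Fin 2) K) =
        X a ^ (w i0) := by
      have h6 : (X a ^ (w i0) : MvPolynomial (Fin 2) K).IsHomogeneous (w i0) := by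
        have := (isHomogeneous_X K a).pow (w i0)
        rwa [one_mul] at this
      rw [homogeneousComponent_of_mem h6, if_pos rfl]
    have h7 : homogeneousComponent (w i0) (X a * (tau (P i0) H - X a ^ k)) = 0 := by
      ext s
      rw [coeff_homogeneousComponent, coeff_zero]
      split_ifs with hs
      · exact (mem_pow_idealOfVars_iff' _ _).1 h2 s (by omega)
      · rfl
    rw [h5, h7, add_zero]

end Pool.Agent.H248R5
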