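import Mathlib
import Pool.Agent.H15.G.R_seed8.H248R5.Smooth

set_option autoImplicit false

/-!
# The general member of a linear system whose conditions are independent one degree below
-/

namespace Pool.Agent.H248R5

open MvPolynomial

variable {K : Type*} [Field K]

theorem exists_comb {V : Submodule K (MvPolynomial (Fin 3) K)} {N : ℕ}
    (b : Module.Basis (Fin N) K V) {G : MvPolynomial (Fin 3) K} (hG : G ∈ V) :
    ∃ c : Fin N → K, G = ∑ j, c j • (b j : MvPolynomial (Fin 3) K) := by
  refine ⟨fun j => b.repr ⟨G, hG⟩ j, ?_⟩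
  have h := b.sum_repr ⟨G, hG⟩
  have h2 := congrArg (Submodule.subtype V) h
  rw [map_sum] at h2
  simp only [map_smul, Submodule.subtype_apply] at h2
  exact h2.symm

/-- Generic smoothness from base point freeness. -/
theorem general_of [CharZero K] {n : ℕ} {w : Fin n → ℕ} {P : Fin n → Fin 2 → K} {d : ℕ}
    (h1 : ∀ Q : Fin 3 → K, Q ≠ 0 →
      (∀ i, 0 < w i → ¬ ∃ c : K, Q = c • (![P i 0, P i 1, 1] : Fin 3 → K)) →
      ∃ G ∈ forms w P d, eval Q G ≠ 0)
    (h2 : ∀ i, ∀ v : Fin 2 → K, v ≠ 0 →
      ∃ G ∈ forms w P d, eval v (homogeneousComponent (w i) (tau (P i) G)) ≠ 0) :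
    GeneralMember (forms w P d) (SmoothMember w P) := by
  classical
  intro N b
  obtain ⟨Φ0, hΦ0, h0⟩ := bertini (fun j => (b j : MvPolynomial (Fin 3) K))
  have hb := fun i => bertini (fun j => homogeneousComponent (w i)
    (tau (P i) (b j : MvPolynomial (Fin 3) K)))
  choose Φ hΦ hΦ' using hb
  refine ⟨Φ0 * ∏ i, Φ i, mul_ne_zero hΦ0 (Finset.prod_ne_zero_iff.2 fun i _ => hΦ i),
    fun t ht => ?_⟩
  rw [map_mul, map_prod] at ht
  have ht0 : eval t Φ0 ≠ 0 := left_ne_zero_of_mul ht
  have hti : ∀ i, eval t (Φ i) ≠ 0 := fun i =>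
    Finset.prod_ne_zero_iff.1 (right_ne_zero_of_mul ht) i (Finset.mem_univ i)
  set G := ∑ j, t j • (b j : MvPolynomial (Fin 3) K) with hG
  have hGV : G ∈ forms w P d := by
    rw [hG]
    exact Submodule.sum_mem _ fun j _ => Submodule.smul_mem _ _ (b j).2
  refine ⟨fun Q hQ hQ1 hQ2 => ?_, fun i => ⟨?_, fun v hv hv1 => ?_⟩⟩
  · by_contra hcon
    push Not at hcon
    obtain ⟨H, hH, hHQ⟩ := h1 Q hQ (fun i hi ⟨c, hc⟩ => hcon i hi c hc)
    have h3 := h0 t ht0 Q hQ1 hQ2
    obtain ⟨c, rfl⟩ := exists_comb b hH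
    apply hHQ
    rw [map_sum]
    refine Finset.sum_eq_zero fun j _ => ?_
    rw [smul_eval, h3 j, mul_zero]
  · exact (mem_pow_idealOfVars_iff' _ _).1 ((mem_forms.1 hGV).2 i)
  · by_contra hcon
    push Not at hcon
    have hsum : homogeneousComponent (w i) (tau (P i) G) =
        ∑ j, t j • homogeneousComponent (w i) (tau (P i) (b j : MvPolynomial (Fin 3) K)) := by
      rw [hG, map_sum, map_sum]
      refine Finset.sum_congr rfl fun j _ => ?_
      rw [map_smul, map_smul]
    rw [hsum] at hv1 hcon
    have h3 := hΦ' i t (hti i) v hv1 hcon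
    obtain ⟨H, hH, hHv⟩ := h2 i v hv
    obtain ⟨c, rfl⟩ := exists_comb b hH
    apply hHv
    rw [map_sum, map_sum, map_sum]
    refine Finset.sum_eq_zero fun j _ => ?_
    rw [map_smul, map_smul, smul_eval, h3 j, mul_zero]

/-- **Main lemma**: if the conditions are independent in degree `e`, then the general member in
degree `e + 1` is smooth. -/
theorem general_smooth [CharZero K] {n : ℕ} {w : Fin n → ℕ} {P : Fin n → Fin 2 → K}
    (hP : Function.Injective P) {e : ℕ}
    (h : Module.finrank K ↥(forms w P e) + ∑ i, (w i + 1).choose 2 ≤ (e + 2).choose 2) :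
    GeneralMember (forms w P (e + 1)) (SmoothMember w P) := by
  have hinf : Infinite K := inferInstance
  have hS := surj_of_ind h
  refine general_of (fun Q hQ hQ' => bpf hS Q hQ hQ') fun i v hv => ?_
  rcases Nat.eq_zero_or_pos (w i) with h0 | h0
  · obtain ⟨G, hG, hG'⟩ := bpf hS (![P i 0, P i 1, 1] : Fin 3 → K)
      (fun h => by simpa using congrFun h 2) (fun j hj ⟨c, hc⟩ => by
        have hc2 : c = 1 := by
          have := congrFun hc 2
          simpa using this.symm
        subst hc2
        rw [one_smul] at hc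
        have hij : P i = P j := by
          funext a
          fin_cases a
          · simpa using congrFun hc 0
          · simpa using congrFun hc 1
        have := hP hij
        subst this
        omega)
    refine ⟨G, hG, ?_⟩
    rw [h0, homogeneousComponent_zero, eval_C]
    have := constCoeff_tau (P i) G
    change coeff 0 (tau (P i) G) = _ at this
    rw [this]
    exact hG'
  · obtain ⟨a, ha⟩ : ∃ a, v a ≠ 0 := by
      by_contra hcon
      push Not at hcon
      exact hv (funext hcon)
    obtain ⟨G, hG, hG'⟩ := lead hS i h0 a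
    refine ⟨G, hG, ?_⟩
    rw [hG', map_pow, eval_X]
    exact pow_ne_zero _ ha

/-- Independence of conditions from the expected dimension. -/
theorem general_smooth' [CharZero K] {n : ℕ} {w : Fin n → ℕ} {P : Fin n → Fin 2 → K}
    (hP : Function.Injective P) {d : ℕ} (hd : 0 < d)
    (h : Module.finrank K ↥(forms w P (d - 1)) =
      (d - 1 + 2).choose 2 - ∑ i, (w i + 1).choose 2)
    (hA : ∑ i, (w i + 1).choose 2 ≤ (d + 1).choose 2) :
    GeneralMember (forms w P d) (SmoothMember w P) := by
  obtain ⟨e, rfl⟩ : ∃ e, d = e + 1 := ⟨d - 1, by omega⟩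
  rw [Nat.add_sub_cancel] at h
  refine general_smooth hP ?_
  have h2 : e + 1 + 1 = e + 2 := rfl
  rw [h2] at hA
  omega

/-- The condition that the points have distinct first coordinates. -/
noncomputable def disc (K : Type*) [Field K] (n : ℕ) : MvPolynomial (Fin n × Fin 2) K :=
  ∏ i : Fin n, ∏ j : Fin n, if i = j then 1 else X (i, 0) - X (j, 0)

theorem disc_ne (K : Type*) [Field K] (n : ℕ) : disc K n ≠ 0 := by
  classical
  unfold disc
  refine Finset.prod_ne_zero_iff.2 fun i _ => Finset.prod_ne_zero_iff.2 fun j _ => ?_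
  split_ifs with hij
  · exact one_ne_zero
  · rw [sub_ne_zero]
    intro h
    have := X_injective h
    exact hij (congrArg Prod.fst this)

theorem inj_of_disc {n : ℕ} {P : Fin n → Fin 2 → K}
    (h : eval (fun ij : Fin n × Fin 2 => P ij.1 ij.2) (disc K n) ≠ 0) :
    Function.Injective P := by
  classical
  intro i j hij
  by_contra hne
  apply h
  unfold disc
  rw [map_prod]
  refine Finset.prod_eq_zero (Finset.mem_univ i) ?_
  rw [map_prod]
  refine Finset.prod_eq_zero (Finset.mem_univ j) ?_
  rw [if_neg hne, map_sub, eval_X, eval_X]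
  simp only
  rw [hij, sub_self]

end Pool.Agent.H248R5
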